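import Pool.Agent.helper17.EXC.Spec

set_option autoImplicit false

open Finset

namespace Pool.Agent.EXC

section
variable {n : ℕ} (C : Matrix (Fin n) (Fin n) ℤ) [IsC C] {F : Type} [Field F] {a : Lm C F}

theorem XAU_faB (ha : Xtr C a) (v : Lm C F) : fm C a (br C a v) = 0 := by
  have h := ha.inv a v
  rw [ha.aa, fm_zero_left] at h
  have h2 := congrArg (fun x => -x) h
  simp only [neg_zero, neg_neg] at h2
  exact h2.symm

theorem XAU_zero (v : Lm C F) : xe C a 0 v = v := by
  unfold xe
  simp

theorem XAU_addv (t : F) (v w : Lm C F) : xe C a t (v + w) = xe C a t v + xe C a t w := by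
  unfold xe
  rw [br_add_right, fm_add_right]
  module

theorem XAU_smulv (t c : F) (v : Lm C F) : xe C a t (c • v) = c • xe C a t v := by
  unfold xe
  rw [br_smul_right, fm_smul_right]
  module

theorem XAU_add (ha : Xtr C a) (s t : F) (v : Lm C F) : xe C a s (xe C a t v) = xe C a (s + t) v := by
  have h1 : br C a (xe C a t v) = br C a v + (2 * t * fm C a v) • a := by
    unfold xe
    rw [br_add_right, br_add_right, br_smul_right, br_smul_right, ha.sq, ha.aa]
    module
  have h2 : fm C a (xe C a t v) = fm C a v := by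
    unfold xe
    rw [fm_add_right, fm_add_right, fm_smul_right, fm_smul_right, XAU_faB C ha, ha.ff]
    ring
  have h3 : xe C a s (xe C a t v) = xe C a t v + s • br C a (xe C a t v) + (s ^ 2 * fm C a (xe C a t v)) • a := rfl
  rw [h3, h1, h2]
  unfold xe
  module

/-- the linear bijection -/
noncomputable def XAU_eq (ha : Xtr C a) (t : F) : Lm C F ≃ₗ[F] Lm C F where
  toFun := xe C a t
  map_add' := XAU_addv C t
  map_smul' := fun c v => XAU_smulv C t c v
  invFun := xe C a (-t)
  left_inv := fun v => by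
    rw [XAU_add C ha, neg_add_cancel, XAU_zero]
  right_inv := fun v => by
    rw [XAU_add C ha, add_neg_cancel, XAU_zero]

theorem XAU_br (hanti : ∀ v w : Lm C F, br C v w = -br C w v) (ha : Xtr C a) (t : F) (v w : Lm C F) :
    xe C a t (br C v w) = br C (xe C a t v) (xe C a t w) := by
  have e1 : br C (xe C a t v) (xe C a t w) = br C v w + t • (br C v (br C a w) + br C (br C a v) w) +
      (t ^ 2) • (br C (br C a v) (br C a w) + fm C a w • br C v a + fm C a v • br C a w) +
      (t ^ 3) • (fm C a w • br C (br C a v) a + fm C a v • br C a (br C a w)) +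
      (t ^ 4 * (fm C a v * fm C a w)) • br C a a := by
    unfold xe
    simp only [br_add_left, br_add_right, br_smul_left, br_smul_right]
    module
  rw [e1, hanti v a, hanti (br C a v) a, ha.sq, ha.sq, ha.aa]
  have e2 : xe C a t (br C v w) = br C v w + t • br C a (br C v w) + (t ^ 2) • (fm C a (br C v w) • a) := by
    unfold xe
    module
  rw [e2, ha.jac, ha.str]
  module

theorem XAU_fm (hsymm : ∀ v w : Lm C F, fm C v w = fm C w v) (ha : Xtr C a) (t : F) (v w : Lm C F) :
    fm C (xe C a t v) (xe C a t w) = fm C v w := by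
  have e1 : fm C (xe C a t v) (xe C a t w) = fm C v w + t * (fm C v (br C a w) + fm C (br C a v) w) +
      t ^ 2 * (fm C (br C a v) (br C a w) + fm C a w * fm C v a + fm C a v * fm C a w) +
      t ^ 3 * (fm C a w * fm C (br C a v) a + fm C a v * fm C a (br C a w)) +
      t ^ 4 * (fm C a v * fm C a w) * fm C a a := by
    unfold xe
    simp only [fm_add_left, fm_add_right, fm_smul_left, fm_smul_right]
    ring
  rw [e1, ha.inv v w, ha.inv v (br C a w), ha.sq, fm_smul_right, hsymm (br C a v) a, XAU_faB C ha, XAU_faB C ha, ha.ff,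
    hsymm v a]
  ring

theorem XAU_conj {g : Lm C F ≃ₗ[F] Lm C F} (hg : Au C g) (ha : Xtr C a) : Xtr C (g a) := by
  have hs : ∀ v : Lm C F, ∃ v₀, g v₀ = v := fun v => ⟨g.symm v, g.apply_symm_apply v⟩
  constructor
  · intro v w
    obtain ⟨v, rfl⟩ := hs v
    obtain ⟨w, rfl⟩ := hs w
    rw [← hg.br, ← hg.br, ha.jac, map_add, hg.br, hg.br, hg.br, hg.br]
  · intro v w
    obtain ⟨v, rfl⟩ := hs v
    obtain ⟨w, rfl⟩ := hs w
    rw [← hg.br v w, hg.fm, hg.fm, hg.fm, ← hg.br a v, ← hg.br a w, ← hg.br, ← map_smul, ha.str, map_add, map_sub,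
      map_smul, map_smul]
  · intro v w
    obtain ⟨v, rfl⟩ := hs v
    obtain ⟨w, rfl⟩ := hs w
    rw [← hg.br, ← hg.br, hg.fm, hg.fm, ha.inv]
  · intro v
    obtain ⟨v, rfl⟩ := hs v
    rw [← hg.br, ← hg.br, hg.fm, ha.sq, map_smul]
  · rw [← hg.br, ha.aa, map_zero]
  · rw [hg.fm, ha.ff]

theorem XAU_conj2 {g : Lm C F ≃ₗ[F] Lm C F} (hg : Au C g) (t : F) (v : Lm C F) :
    g (xe C a t v) = xe C (g a) t (g v) := by
  unfold xe
  rw [map_add, map_add, map_smul, map_smul, hg.br, hg.fm]

theorem XAU_scal (ha : Xtr C a) (c : F) : Xtr C (c • a) := by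
  constructor
  · intro v w
    rw [br_smul_left, br_smul_left, br_smul_left, ha.jac, br_smul_left, br_smul_right, smul_add]
  · intro v w
    have h := ha.str v w
    simp only [fm_smul_left, br_smul_left, br_smul_right]
    have e : (c * fm C a (br C v w)) • c • a = (c ^ 2) • (fm C a (br C v w) • a) := by module
    rw [e, h]
    module
  · intro v w
    rw [br_smul_left, br_smul_left, fm_smul_left, fm_smul_right, ha.inv]
    ring
  · intro v
    rw [br_smul_left, br_smul_left, br_smul_right, ha.sq, fm_smul_left]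
    module
  · rw [br_smul_left, br_smul_right, ha.aa, smul_zero, smul_zero]
  · rw [fm_smul_left, fm_smul_right, ha.ff]
    ring

theorem XAU_scal2 (c t : F) (v : Lm C F) : xe C (c • a) t v = xe C a (c * t) v := by
  unfold xe
  rw [br_smul_left, fm_smul_left]
  module

end

theorem XAU (hINV : INV_stmt) : XAU_stmt := by
  intro n C _ F _ a ha
  obtain ⟨_, _, hsymm, hanti, _⟩ := hINV n C F
  refine ⟨XAU_add C ha, ?_, ?_, ?_⟩
  · intro t
    refine ⟨XAU_eq C ha t, fun v => rfl, ⟨?_, ?_⟩⟩
    · intro v w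
      exact XAU_br C hanti ha t v w
    · intro v w
      exact XAU_fm C hsymm ha t v w
  · intro g hg
    exact ⟨XAU_conj C hg ha, XAU_conj2 C hg⟩
  · intro c
    exact ⟨XAU_scal C ha c, XAU_scal2 C c⟩

end Pool.Agent.EXC
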